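import Pool.Agent.PLG.Stmts

/-! # Squad PLG (MP_1fc801_co), row MUL: multiplication by the ratios of a block -/

set_option autoImplicit false

namespace Pool.Agent.PLG.H26

theorem mul (hT : TraStmt) : MulStmt := by
  intro E _ _ f G W j H t₁ t₂ q hN ht1 ht2 h12 hq x hx hxn
  obtain ⟨k, hk, l, hl, hk1, hk2, hl1, hl2, rfl⟩ := hq
  have hH : 1 ≤ H := hN.hH
  have hf0 : 0 ≤ ‖f x‖ := norm_nonneg _
  have hH2 : 1 ≤ H ^ 2 := one_le_pow₀ hH
  have hH3 : 1 ≤ H ^ 3 := one_le_pow₀ hH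
  have hH4 : H ≤ H ^ 4 := by
    have : H * 1 ≤ H * H ^ 3 := mul_le_mul_of_nonneg_left hH3 (by linarith)
    calc H = H * 1 := (mul_one H).symm
      _ ≤ H * H ^ 3 := this
      _ = H ^ 4 := by ring
  have h1 : ‖f x‖ * (H + 1) ≤ 1 := by
    have : ‖f x‖ * (H + 1) ≤ ‖f x‖ * (256 * H ^ 4) :=
      mul_le_mul_of_nonneg_left (by linarith) hf0
    linarith
  obtain ⟨c, hc1, hcH, y, hy, z, hz, hxyz, -, hfz⟩ :=
    hT E f G W j H t₁ k t₂ hN ht1 hk ht2 hk1.symm h12 hk2 x hx h1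
  have hfz1 : ‖f z‖ * (H + 1) ≤ 1 := by
    have e1 : ‖f z‖ * (H + 1) ≤ 16 * H ^ 2 * ‖f x‖ * (H + 1) :=
      mul_le_mul_of_nonneg_right hfz (by linarith)
    have e2 : 16 * H ^ 2 * (H + 1) ≤ 256 * H ^ 4 := by
      have e3 : H + 1 ≤ 2 * H ^ 2 := by nlinarith
      have e4 : 16 * H ^ 2 * (H + 1) ≤ 16 * H ^ 2 * (2 * H ^ 2) :=
        mul_le_mul_of_nonneg_left e3 (by positivity)
      nlinarith [pow_nonneg (by linarith : (0 : ℝ) ≤ H) 4]
    have e5 : 16 * H ^ 2 * (H + 1) * ‖f x‖ ≤ 256 * H ^ 4 * ‖f x‖ :=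
      mul_le_mul_of_nonneg_right e2 hf0
    linarith
  obtain ⟨c', hc1', hcH', w, hw, v, hv, hzwv, -, hfv⟩ :=
    hT E f G W j H t₂ l t₁ hN ht2 hl ht1 hl2.symm h12.symm hl1 z hz hfz1
  -- real parts
  have hxim := hx.2
  have hyim := hy.2
  have hzim := hz.2
  have hwim := hw.2
  have hvim := hv.2
  change x.im = t₁ * x.re at hxim
  change y.im = k * y.re at hyim
  change z.im = t₂ * z.re at hzim
  change w.im = l * w.re at hwim
  change v.im = t₁ * v.re at hvim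
  have r1 : (c : ℝ) * x.re = y.re + z.re := by
    have := congrArg Complex.re hxyz
    simpa using this
  have i1 : (c : ℝ) * x.im = y.im + z.im := by
    have := congrArg Complex.im hxyz
    simpa using this
  have r2 : (c' : ℝ) * z.re = w.re + v.re := by
    have := congrArg Complex.re hzwv
    simpa using this
  have i2 : (c' : ℝ) * z.im = w.im + v.im := by
    have := congrArg Complex.im hzwv
    simpa using this
  have hk1' : k - t₁ ≠ 0 := sub_ne_zero.2 hk1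
  have hk2' : k - t₂ ≠ 0 := sub_ne_zero.2 hk2
  have hl1' : l - t₁ ≠ 0 := sub_ne_zero.2 hl1
  have hl2' : l - t₂ ≠ 0 := sub_ne_zero.2 hl2
  have hzre : z.re * (k - t₂) = c * x.re * (k - t₁) := by
    rw [hxim, hyim, hzim] at i1
    linear_combination i1 - k * r1
  have hvre : v.re * (l - t₁) = c' * z.re * (l - t₂) := by
    rw [hzim, hwim, hvim] at i2
    linear_combination i2 - l * r2
  have hzre' : z.re = c * x.re * ((k - t₁) / (k - t₂)) := by
    field_simp
    linear_combination hzre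
  have hvre' : v.re = c' * z.re * ((l - t₂) / (l - t₁)) := by
    field_simp
    linear_combination hvre
  have hvfin : v.re = ((c * c' : ℕ) : ℝ) * lam t₁ t₂ k l * x.re := by
    rw [hvre', hzre']
    unfold lam
    push_cast
    field_simp
  have hveq : ((((c * c' : ℕ) : ℝ) * lam t₁ t₂ k l : ℝ) : ℂ) * x = v := by
    refine eq_of_re (t := t₁) ?_ hvim ?_
    · rw [Complex.im_ofReal_mul, Complex.re_ofReal_mul, hxim]
      ring
    · rw [Complex.re_ofReal_mul, hvfin]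
  refine ⟨c * c', ?_, ?_, ?_, ?_⟩
  · exact Nat.one_le_iff_ne_zero.2 (Nat.mul_ne_zero (by omega) (by omega))
  · push_cast
    have e1 : (c : ℝ) * c' ≤ H * H :=
      mul_le_mul hcH hcH' (Nat.cast_nonneg _) (by linarith)
    have e2 : H * H ≤ 256 * H ^ 4 := by
      have : H ^ 2 * 1 ≤ H ^ 2 * H ^ 2 := mul_le_mul_of_nonneg_left hH2 (by positivity)
      nlinarith [pow_nonneg (by linarith : (0 : ℝ) ≤ H) 4]
    linarith
  · rw [hveq]
    exact hv
  · rw [hveq]
    have e1 : 16 * H ^ 2 * ‖f z‖ ≤ 16 * H ^ 2 * (16 * H ^ 2 * ‖f x‖) :=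
      mul_le_mul_of_nonneg_left hfz (by positivity)
    have e2 : 16 * H ^ 2 * (16 * H ^ 2 * ‖f x‖) = 256 * H ^ 4 * ‖f x‖ := by ring
    linarith

end Pool.Agent.PLG.H26
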